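import Pool.Agent.Results.MP_fd6526_gt.MeanBodyEmbeds

/-!
# The radial mean bodies of the cube: the moment formula
-/

set_option autoImplicit false
set_option linter.all false
open MeasureTheory Set Filter Topology Metric Module
open scoped ENNReal RealInnerProductSpace

namespace Pool.Agent.T3h47.RM

open Pool.Agent.R751.RMB
open Pool.Agent.Results.MP_fd6526_gt.MeanBodyEmbeds (Body radial meanRadial meanBody mean
  meanRadial_eq radial_meanBody mean_pos integrable_len radial_eq)

variable {n : ℕ}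

abbrev Eu (n : ℕ) : Type := EuclideanSpace ℝ (Fin n)

/-- the unit cube -/
def cube (n : ℕ) : Set (Eu n) := {x | ∀ i, x i ∈ Icc (0 : ℝ) 1}

/-- the covariogram of the cube -/
noncomputable def tent (t : ℝ) : ℝ := max 0 (1 - |t|)

noncomputable def cov (z : Eu n) : ℝ := ∏ i, tent (z i)

lemma tent_nonneg (t : ℝ) : 0 ≤ tent t := le_max_left _ _

lemma tent_le_one (t : ℝ) : tent t ≤ 1 := by
  unfold tent
  exact max_le zero_le_one (by linarith [abs_nonneg t])

lemma cov_nonneg (z : Eu n) : 0 ≤ cov z := Finset.prod_nonneg fun i _ => tent_nonneg _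

lemma cov_le_one (z : Eu n) : cov z ≤ 1 := Finset.prod_le_one (fun i _ => tent_nonneg _)
  fun i _ => tent_le_one _

lemma isCompact_cube (n : ℕ) : IsCompact (cube n) := by
  have h : cube n = (EuclideanSpace.equiv (Fin n) ℝ) ⁻¹' (Set.pi univ fun _ => Icc (0 : ℝ) 1) := by
    ext x
    simp only [cube, mem_setOf_eq, mem_preimage, Set.mem_pi, mem_univ, true_implies]
    rfl
  rw [h]
  exact (EuclideanSpace.equiv (Fin n) ℝ).toHomeomorph.isCompact_preimage.2
    (isCompact_univ_pi fun _ => isCompact_Icc)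

lemma convex_cube (n : ℕ) : Convex ℝ (cube n) := by
  intro x hx y hy a b ha hb hab i
  have h1 := hx i
  have h2 := hy i
  simp only [PiLp.add_apply, PiLp.smul_apply, smul_eq_mul, mem_Icc] at *
  constructor
  · nlinarith [h1.1, h2.1]
  · nlinarith [h1.2, h2.2]

lemma interior_cube (n : ℕ) : (interior (cube n)).Nonempty := by
  refine ⟨(EuclideanSpace.equiv (Fin n) ℝ).symm fun _ => 1 / 2, ?_⟩
  rw [mem_interior]
  refine ⟨{x | ∀ i, x i ∈ Ioo (0 : ℝ) 1}, fun x hx i => Ioo_subset_Icc_self (hx i), ?_, fun i => ?_⟩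
  · have h : {x : Eu n | ∀ i, x i ∈ Ioo (0 : ℝ) 1} =
        (EuclideanSpace.equiv (Fin n) ℝ) ⁻¹' (Set.pi univ fun _ => Ioo (0 : ℝ) 1) := by
      ext x
      simp [Set.mem_pi]
    rw [h]
    exact (isOpen_set_pi finite_univ fun _ _ => isOpen_Ioo).preimage
      (EuclideanSpace.equiv (Fin n) ℝ).continuous
  · norm_num

lemma body_cube (n : ℕ) : Body (cube n) := ⟨isCompact_cube n, convex_cube n, interior_cube n⟩

/-- volume of a box -/
lemma volume_box (A : Fin n → Set ℝ) :
    volume {x : Eu n | ∀ i, x i ∈ A i} = ∏ i, volume (A i) := by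
  have h := (EuclideanSpace.volume_preserving_symm_measurableEquiv_toLp (Fin n)).symm
  have h1 : {x : Eu n | ∀ i, x i ∈ A i} =
      (MeasurableEquiv.toLp 2 (Fin n → ℝ)).symm ⁻¹' (Set.pi univ A) := by
    ext x
    simp [Set.mem_pi]
  rw [h1, (EuclideanSpace.volume_preserving_symm_measurableEquiv_toLp (Fin n)).measure_preimage_equiv,
    volume_pi_pi]

lemma volume_cube (n : ℕ) : volume (cube n) = 1 := by
  unfold cube
  rw [volume_box]
  simp

lemma volume_inter (t : ℝ) : volume (Icc (0 : ℝ) 1 ∩ {y | y + t ∈ Icc (0 : ℝ) 1}) =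
    ENNReal.ofReal (tent t) := by
  have h : Icc (0 : ℝ) 1 ∩ {y | y + t ∈ Icc (0 : ℝ) 1} = Icc (max 0 (-t)) (min 1 (1 - t)) := by
    ext y
    simp only [mem_inter_iff, mem_Icc, mem_setOf_eq, max_le_iff, le_min_iff]
    constructor
    · rintro ⟨⟨a, b⟩, c, d⟩
      exact ⟨⟨a, by linarith⟩, b, by linarith⟩
    · rintro ⟨⟨a, b⟩, c, d⟩
      exact ⟨⟨a, c⟩, by linarith, by linarith⟩
  rw [h, Real.volume_Icc]
  unfold tent
  rcases le_total 0 t with ht | ht
  · rw [max_eq_left (by linarith : -t ≤ 0), min_eq_right (by linarith : 1 - t ≤ 1), abs_of_nonneg ht,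
      ENNReal.ofReal_max]
    simp
  · rw [max_eq_right (by linarith : 0 ≤ -t), min_eq_left (by linarith : 1 ≤ 1 - t),
      abs_of_nonpos ht, ENNReal.ofReal_max]
    simp

lemma out_cube (x : Eu n) (s : ℝ) : out (cube n) x s = ENNReal.ofReal (1 - cov (s • x)) := by
  have h0 : {y : Eu n | y ∈ cube n ∧ y + s • x ∉ cube n} =
      cube n \ {y | ∀ i, y i ∈ Icc (0 : ℝ) 1 ∩ {z | z + s * x i ∈ Icc (0 : ℝ) 1}} := by
    ext y
    simp only [cube, mem_setOf_eq, mem_diff, PiLp.add_apply, PiLp.smul_apply, smul_eq_mul,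
      mem_inter_iff]
    constructor
    · rintro ⟨a, b⟩
      exact ⟨a, fun h => b fun i => (h i).2⟩
    · rintro ⟨a, b⟩
      exact ⟨a, fun h => b fun i => ⟨a i, h i⟩⟩
  have hsub : {y : Eu n | ∀ i, y i ∈ Icc (0 : ℝ) 1 ∩ {z | z + s * x i ∈ Icc (0 : ℝ) 1}} ⊆ cube n :=
    fun y hy i => (hy i).1
  have hvol : volume {y : Eu n | ∀ i, y i ∈ Icc (0 : ℝ) 1 ∩ {z | z + s * x i ∈ Icc (0 : ℝ) 1}} =
      ENNReal.ofReal (cov (s • x)) := by
    rw [volume_box]
    simp_rw [volume_inter]
    unfold cov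
    rw [ENNReal.ofReal_prod_of_nonneg fun i _ => tent_nonneg _]
    rfl
  have hmeas : MeasurableSet {y : Eu n | ∀ i, y i ∈ Icc (0 : ℝ) 1 ∩
      {z | z + s * x i ∈ Icc (0 : ℝ) 1}} := by
    have : {y : Eu n | ∀ i, y i ∈ Icc (0 : ℝ) 1 ∩ {z | z + s * x i ∈ Icc (0 : ℝ) 1}} =
        ⋂ i, {y : Eu n | y i ∈ Icc (0 : ℝ) 1 ∩ {z | z + s * x i ∈ Icc (0 : ℝ) 1}} := by
      ext y
      simp
    rw [this]
    refine MeasurableSet.iInter fun i => ?_
    have hm : Measurable fun y : Eu n => y i := by fun_prop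
    refine hm (measurableSet_Icc.inter ?_)
    exact measurableSet_Icc.preimage (by fun_prop : Measurable fun z : ℝ => z + s * x i)
  rw [out, h0, measure_diff hsub hmeas.nullMeasurableSet (by rw [hvol]; exact ENNReal.ofReal_ne_top),
    volume_cube, hvol, ENNReal.ofReal_sub _ (cov_nonneg _), ENNReal.ofReal_one]

lemma one_sub_prod_le {ι : Type*} (s : Finset ι) (a : ι → ℝ) (h0 : ∀ i, 0 ≤ a i) (h1 : ∀ i, a i ≤ 1) :
    1 - ∏ i ∈ s, a i ≤ ∑ i ∈ s, (1 - a i) := by
  classical
  induction s using Finset.induction_on with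
  | empty => simp
  | insert i s hi ih =>
    rw [Finset.prod_insert hi, Finset.sum_insert hi]
    have hp : ∏ i ∈ s, a i ≤ 1 := Finset.prod_le_one (fun i _ => h0 i) fun i _ => h1 i
    have hp0 : 0 ≤ ∏ i ∈ s, a i := Finset.prod_nonneg fun i _ => h0 i
    nlinarith [h0 i, h1 i]

lemma one_sub_cov_le (z : Eu n) : 1 - cov z ≤ n * ‖z‖ := by
  unfold cov
  refine (one_sub_prod_le Finset.univ (fun i => tent (z i)) (fun i => tent_nonneg _)
    fun i => tent_le_one _).trans ?_
  calc ∑ i, (1 - tent (z i)) ≤ ∑ i : Fin n, ‖z‖ := by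
        refine Finset.sum_le_sum fun i _ => ?_
        have h1 : 1 - tent (z i) ≤ |z i| := by
          unfold tent
          have := le_max_right 0 (1 - |z i|)
          linarith
        have h2 : |z i| ≤ ‖z‖ := by
          have := PiLp.norm_apply_le z i
          rwa [Real.norm_eq_abs] at this
        linarith
    _ = n * ‖z‖ := by simp

lemma continuous_tent : Continuous tent := by
  unfold tent
  fun_prop

lemma continuous_cov : Continuous (cov : Eu n → ℝ) := by
  unfold cov
  refine continuous_finset_prod _ fun i _ => ?_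
  exact continuous_tent.comp (by fun_prop)

/-- the kernel in `s` -/
noncomputable def ker (q : ℝ) (x : Eu n) (s : ℝ) : ℝ := q * s ^ (-1 - q) * (1 - cov (s • x))

lemma ker_nonneg {q : ℝ} (hq : 0 < q) (x : Eu n) {s : ℝ} (hs : 0 < s) : 0 ≤ ker q x s := by
  unfold ker
  have := cov_le_one (s • x)
  have h2 : 0 ≤ s ^ (-1 - q) := Real.rpow_nonneg hs.le _
  have h3 : 0 ≤ 1 - cov (s • x) := by linarith
  positivity

lemma mean_eq {p : ℝ} (hp : -1 < p) (hp0 : p < 0) {x : Eu n} (hx : x ≠ 0) :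
    radial (meanBody (cube n) p) x ^ p = mean (cube n) (-p) x := by
  have hn : 0 < ‖x‖ := norm_pos_iff.2 hx
  have hu : ‖x‖⁻¹ • x ≠ 0 := smul_ne_zero (inv_ne_zero hn.ne') hx
  have hq : 0 < -p := by linarith
  have hq1 : -p < 1 := by linarith
  have hm := (mean_pos (body_cube n) hq hq1 hu).le
  have hhom : mean (cube n) (-p) (‖x‖⁻¹ • x) = ‖x‖⁻¹ ^ (-p) * mean (cube n) (-p) x := by
    unfold mean
    rw [mul_left_comm]
    congr 1
    rw [← integral_const_mul]
    refine setIntegral_congr_fun (isCompact_cube n).measurableSet fun y hy => ?_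
    have h1 : len (cube n) (‖x‖⁻¹ • x) y = ‖x‖ * len (cube n) x y := by
      unfold len
      rw [← smul_eq_mul, ← Real.sSup_smul_of_nonneg hn.le]
      congr 1
      ext t
      simp only [mem_setOf_eq, Set.mem_smul_set, smul_eq_mul]
      constructor
      · rintro ⟨a, b⟩
        refine ⟨‖x‖⁻¹ * t, ⟨by positivity, ?_⟩, by field_simp⟩
        rwa [smul_smul, mul_comm] at b
      · rintro ⟨r, ⟨a, b⟩, rfl⟩
        refine ⟨by positivity, ?_⟩
        rw [smul_smul]
        rwa [show ‖x‖ * r * ‖x‖⁻¹ = r by field_simp]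
    rw [h1, Real.mul_rpow hn.le (len_nonneg _ _ _), Real.inv_rpow hn.le, neg_neg,
      ← Real.rpow_neg hn.le, neg_neg]
  rw [radial_meanBody (body_cube n) hp hp0 hx, meanRadial_eq,
    Real.div_rpow (Real.rpow_nonneg hm _) hn.le, ← Real.rpow_mul hm,
    one_div, inv_mul_cancel₀ hp0.ne, Real.rpow_one, hhom, Real.inv_rpow hn.le, Real.rpow_neg hn.le,
    inv_inv]
  have : 0 < ‖x‖ ^ p := Real.rpow_pos_of_pos hn _
  field_simp

lemma lint_eq {q : ℝ} (hq : 0 < q) {x : Eu n} (hx : x ≠ 0) :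
    ∫⁻ s in Ioi (0 : ℝ), ENNReal.ofReal (ker q x s) =
      ∫⁻ y in cube n, ENNReal.ofReal (len (cube n) x y ^ (-q)) := by
  rw [← layer (isCompact_cube n) (convex_cube n) hx hq,
    ← lintegral_const_mul' _ _ ENNReal.ofReal_ne_top]
  refine setLIntegral_congr_fun measurableSet_Ioi fun s hs => ?_
  have hs' : 0 < s := hs
  simp only
  rw [out_cube, ← ENNReal.ofReal_mul (Real.rpow_nonneg hs'.le _), ← ENNReal.ofReal_mul hq.le]
  unfold ker
  congr 1
  ring

lemma measurable_ker (q : ℝ) : Measurable fun z : Eu n × ℝ => ker q z.1 z.2 := by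
  unfold ker
  have h1 : Measurable fun z : Eu n × ℝ => cov (z.2 • z.1) :=
    continuous_cov.measurable.comp (by fun_prop)
  fun_prop

lemma lint_ker_lt_top {q : ℝ} (hq : 0 < q) (hq1 : q < 1) {x : Eu n} (hx : x ≠ 0) :
    ∫⁻ s in Ioi (0 : ℝ), ENNReal.ofReal (ker q x s) < ∞ := by
  rw [lint_eq hq hx]
  exact moment_lt_top (isCompact_cube n) (convex_cube n) (interior_cube n) hq hq1 hx

lemma integrable_ker {q : ℝ} (hq : 0 < q) (hq1 : q < 1) {x : Eu n} (hx : x ≠ 0) :
    IntegrableOn (ker q x) (Ioi 0) := by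
  refine ⟨((measurable_ker q).comp (measurable_prodMk_left (x := x))).aestronglyMeasurable, ?_⟩
  rw [hasFiniteIntegral_iff_ofReal]
  · exact lint_ker_lt_top hq hq1 hx
  · rw [EventuallyLE, ae_restrict_iff' measurableSet_Ioi]
    exact Eventually.of_forall fun s hs => ker_nonneg hq x hs

/-- **the moment formula** -/
lemma mean_formula {q : ℝ} (hq : 0 < q) (hq1 : q < 1) {x : Eu n} (hx : x ≠ 0) :
    mean (cube n) q x = ∫ s in Ioi (0 : ℝ), ker q x s := by
  unfold mean
  rw [volume_cube, ENNReal.toReal_one, inv_one, one_mul,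
    integral_eq_lintegral_of_nonneg_ae (Eventually.of_forall fun y => Real.rpow_nonneg (len_nonneg _ x y) _)
      (integrable_len (body_cube n) hq hq1 hx).aestronglyMeasurable,
    integral_eq_lintegral_of_nonneg_ae _ (integrable_ker hq hq1 hx).aestronglyMeasurable, lint_eq hq hx]
  rw [EventuallyLE, ae_restrict_iff' measurableSet_Ioi]
  exact Eventually.of_forall fun s hs => ker_nonneg hq x hs

/-- growth of the kernel -/
lemma int_ker_le {q : ℝ} (hq : 0 < q) (hq1 : q < 1) {x : Eu n} (hx : x ≠ 0) :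
    ∫ s in Ioi (0 : ℝ), ker q x s ≤ 1 + q / (1 - q) * (n * ‖x‖) := by
  have hi := integrable_ker hq hq1 hx
  rw [← Ioc_union_Ioi_eq_Ioi (zero_le_one' ℝ), setIntegral_union (Ioc_disjoint_Ioi le_rfl)
    measurableSet_Ioi (hi.mono_set Ioc_subset_Ioi_self) (hi.mono_set (Ioi_subset_Ioi zero_le_one)),
    add_comm]
  have hI1 : IntegrableOn (fun s : ℝ => q * s ^ (-1 - q)) (Ioi 1) :=
    (integrableOn_Ioi_rpow_of_lt (by linarith) one_pos).const_mul q
  have hI2 : IntegrableOn (fun s : ℝ => q * (n * ‖x‖) * s ^ (-q)) (Ioc 0 1) := by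
    rw [← intervalIntegrable_iff_integrableOn_Ioc_of_le zero_le_one]
    exact (intervalIntegral.intervalIntegrable_rpow' (by linarith)).const_mul _
  refine add_le_add ?_ ?_
  · refine (setIntegral_mono_on (hi.mono_set (Ioi_subset_Ioi zero_le_one)) hI1 measurableSet_Ioi
      fun s hs => ?_).trans ?_
    · have hs' : (1 : ℝ) < s := hs
      unfold ker
      have h1 := cov_nonneg (s • x)
      have h2 : 0 ≤ q * s ^ (-1 - q) := by
        have := Real.rpow_nonneg (show 0 ≤ s by linarith) (-1 - q)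
        positivity
      nlinarith
    · rw [integral_const_mul, integral_Ioi_rpow_of_lt (by linarith) one_pos]
      rw [Real.one_rpow, show -1 - q + 1 = -q by ring]
      field_simp
      exact le_refl _
  · refine (setIntegral_mono_on (hi.mono_set Ioc_subset_Ioi_self) hI2 measurableSet_Ioc
      fun s hs => ?_).trans ?_
    · have hs' : (0 : ℝ) < s := hs.1
      unfold ker
      have h1 := one_sub_cov_le (s • x)
      rw [norm_smul, Real.norm_eq_abs, abs_of_pos hs'] at h1
      have h2 : 0 ≤ q * s ^ (-1 - q) := by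
        have := Real.rpow_nonneg hs'.le (-1 - q)
        positivity
      have h3 : s ^ (-q) = s ^ (-1 - q) * s := by
        rw [← Real.rpow_add_one hs'.ne']
        congr 1
        ring
      calc q * s ^ (-1 - q) * (1 - cov (s • x)) ≤ q * s ^ (-1 - q) * (n * (s * ‖x‖)) :=
            mul_le_mul_of_nonneg_left h1 h2
        _ = q * (n * ‖x‖) * s ^ (-q) := by rw [h3]; ring
    · rw [integral_const_mul, ← intervalIntegral.integral_of_le zero_le_one,
        integral_rpow (Or.inl (by linarith)), Real.one_rpow, Real.zero_rpow (by linarith)]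
      have : 0 < 1 - q := by linarith
      rw [show -q + 1 = 1 - q by ring]
      field_simp
      simp

end Pool.Agent.T3h47.RM
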