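import Pool.Agent.T3h47.RM.A

/-!
# The radial mean bodies of the cube: Fourier transforms
-/

set_option autoImplicit false
set_option linter.all false
open MeasureTheory Set Filter Topology Metric Module
open scoped ENNReal RealInnerProductSpace FourierTransform SchwartzMap

namespace Pool.Agent.T3h47.RM

variable {n : ℕ}

/-- the Fourier transform of a test function, `∫ φ(ξ) e^{-i⟨x,ξ⟩} dξ` -/
noncomputable def ft (φ : 𝓢(Eu n, ℂ)) (x : Eu n) : ℂ :=
  ∫ ξ, φ ξ * Complex.exp (-(((⟪x, ξ⟫ : ℝ) : ℂ) * Complex.I))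

lemma ft_eq (φ : 𝓢(Eu n, ℂ)) (x : Eu n) : ft φ x = (𝓕 φ : 𝓢(Eu n, ℂ)) ((2 * Real.pi)⁻¹ • x) := by
  rw [SchwartzMap.fourier_coe, Real.fourier_eq']
  unfold ft
  refine integral_congr_ae (Eventually.of_forall fun ξ => ?_)
  simp only
  rw [smul_eq_mul, mul_comm]
  congr 2
  rw [real_inner_smul_right, real_inner_comm x ξ]
  have h0 : Real.pi ≠ 0 := Real.pi_ne_zero
  rw [show -2 * Real.pi * ((2 * Real.pi)⁻¹ * ⟪x, ξ⟫) = -⟪x, ξ⟫ by field_simp]
  push_cast
  ring

lemma continuous_ft (φ : 𝓢(Eu n, ℂ)) : Continuous (ft φ) := by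
  have : ft φ = fun x => (𝓕 φ : 𝓢(Eu n, ℂ)) ((2 * Real.pi)⁻¹ • x) := funext (ft_eq φ)
  rw [this]
  exact (𝓕 φ : 𝓢(Eu n, ℂ)).continuous.comp (by fun_prop)

lemma integrable_ft_pow (φ : 𝓢(Eu n, ℂ)) (k : ℕ) : Integrable fun x => ‖x‖ ^ k * ‖ft φ x‖ := by
  have h := (𝓕 φ : 𝓢(Eu n, ℂ)).integrable_pow_mul volume k
  have h0 : (2 * Real.pi)⁻¹ ≠ 0 := by positivity
  have h1 := (h.comp_smul h0).const_mul ((2 * Real.pi) ^ k)
  refine h1.congr (Eventually.of_forall fun x => ?_)
  simp only
  have h2 : ‖(2 * Real.pi)⁻¹ • x‖ = (2 * Real.pi)⁻¹ * ‖x‖ := by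
    rw [norm_smul, Real.norm_eq_abs, abs_of_pos (by positivity)]
  rw [ft_eq, h2, mul_pow ((2 * Real.pi)⁻¹), inv_pow]
  have h3 : (2 * Real.pi) ^ k ≠ 0 := by positivity
  rw [← mul_assoc, ← mul_assoc, mul_inv_cancel₀ h3, one_mul]

lemma integrable_ft (φ : 𝓢(Eu n, ℂ)) : Integrable (ft φ) := by
  have h := integrable_ft_pow φ 0
  simp only [pow_zero, one_mul] at h
  exact (integrable_norm_iff (continuous_ft φ).aestronglyMeasurable).1 h

lemma integral_ft (φ : 𝓢(Eu n, ℂ)) (h0 : φ 0 = 0) : ∫ x, ft φ x = 0 := by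
  have h1 : ∫ x, ft φ x = ∫ x, (𝓕 φ : 𝓢(Eu n, ℂ)) ((2 * Real.pi)⁻¹ • x) :=
    integral_congr_ae (Eventually.of_forall fun x => ft_eq φ x)
  rw [h1, Measure.integral_comp_smul]
  have h2 : ∫ x, (𝓕 φ : 𝓢(Eu n, ℂ)) x = φ 0 := by
    have h3 : 𝓕⁻ ((𝓕 φ : 𝓢(Eu n, ℂ)) : Eu n → ℂ) 0 = φ 0 := by
      rw [← SchwartzMap.fourierInv_coe, FourierTransform.fourierInv_fourier_eq]
    rw [← h3, Real.fourierInv_eq']
    simp
  rw [h2, h0, smul_zero]

/-- one-dimensional transform -/
noncomputable def kap (s η : ℝ) : ℝ := ∫ t, tent (s * t) * Real.cos (t * η)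

lemma tent_zero {t : ℝ} (ht : 1 ≤ |t|) : tent t = 0 := by
  unfold tent
  exact max_eq_left (by linarith)

lemma tent_of {t : ℝ} (ht : |t| ≤ 1) : tent t = 1 - |t| := by
  unfold tent
  exact max_eq_right (by linarith)

lemma hcs_tent {s : ℝ} (hs : 0 < s) : HasCompactSupport fun t : ℝ => tent (s * t) := by
  refine HasCompactSupport.of_support_subset_isCompact (isCompact_Icc (a := -s⁻¹) (b := s⁻¹))
    fun t ht => ?_
  by_contra h
  apply ht
  apply tent_zero
  rw [abs_mul, abs_of_pos hs]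
  by_contra h2
  push Not at h2
  apply h
  have h3 : |t| ≤ s⁻¹ := by
    rw [← one_div, le_div_iff₀ hs]
    linarith
  exact abs_le.1 h3

lemma integrable_tent {s : ℝ} (hs : 0 < s) : Integrable fun t : ℝ => tent (s * t) :=
  (continuous_tent.comp (by fun_prop)).integrable_of_hasCompactSupport (hcs_tent hs)

lemma integrable_tent_mul {s : ℝ} (hs : 0 < s) {f : ℝ → ℝ} (hf : Continuous f) :
    Integrable fun t : ℝ => tent (s * t) * f t :=
  ((continuous_tent.comp (by fun_prop)).mul hf).integrable_of_hasCompactSupport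
    ((hcs_tent hs).mul_right)

lemma kap_nonneg_aux {s η : ℝ} (hs : 0 < s) (hη : η ≠ 0) :
    kap s η = 2 * s * (1 - Real.cos (η / s)) / η ^ 2 := by
  have hs' : 0 < s⁻¹ := by positivity
  -- even
  have h1 : kap s η = 2 * ∫ t in Ioi (0 : ℝ), tent (s * t) * Real.cos (t * η) := by
    have h2 : ∀ t : ℝ, tent (s * t) * Real.cos (t * η) =
        (fun t => tent (s * t) * Real.cos (t * η)) |t| := by
      intro t
      simp only
      rcases abs_choice t with h | h
      · rw [h]
      · rw [h]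
        unfold tent
        rw [mul_neg, abs_neg, neg_mul, Real.cos_neg]
    unfold kap
    rw [integral_congr_ae (Eventually.of_forall h2)]
    exact integral_comp_abs (f := fun t => tent (s * t) * Real.cos (t * η))
  have h2 : ∫ t in Ioi (0 : ℝ), tent (s * t) * Real.cos (t * η) =
      ∫ t in (0 : ℝ)..s⁻¹, (1 - s * t) * Real.cos (t * η) := by
    rw [intervalIntegral.integral_of_le hs'.le, ← Ioc_union_Ioi_eq_Ioi hs'.le,
      setIntegral_union (Ioc_disjoint_Ioi le_rfl) measurableSet_Ioi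
        (integrable_tent_mul hs (by fun_prop)).integrableOn
        (integrable_tent_mul hs (by fun_prop)).integrableOn]
    have h3 : ∫ t in Ioi s⁻¹, tent (s * t) * Real.cos (t * η) = 0 := by
      rw [setIntegral_congr_fun (g := fun _ => (0 : ℝ)) measurableSet_Ioi]
      · simp
      · intro t ht
        have ht' : s⁻¹ < t := ht
        have ht0 : 0 < t := hs'.trans ht'
        simp only
        rw [tent_zero, zero_mul]
        rw [abs_of_pos (by positivity)]
        have := mul_le_mul_of_nonneg_left ht'.le hs.le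
        rwa [mul_inv_cancel₀ hs.ne'] at this
    rw [h3, add_zero]
    refine setIntegral_congr_fun measurableSet_Ioc fun t ht => ?_
    have h4 : |s * t| ≤ 1 := by
      rw [abs_of_nonneg (mul_nonneg hs.le ht.1.le)]
      have := mul_le_mul_of_nonneg_left ht.2 hs.le
      rwa [mul_inv_cancel₀ hs.ne'] at this
    rw [tent_of h4, abs_of_nonneg (mul_nonneg hs.le ht.1.le)]
  have h3 : ∫ t in (0 : ℝ)..s⁻¹, (1 - s * t) * Real.cos (t * η) =
      ((1 - s * s⁻¹) * Real.sin (s⁻¹ * η) / η - s * Real.cos (s⁻¹ * η) / η ^ 2) -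
      ((1 - s * 0) * Real.sin (0 * η) / η - s * Real.cos (0 * η) / η ^ 2) := by
    refine intervalIntegral.integral_eq_sub_of_hasDerivAt
      (f := fun t => (1 - s * t) * Real.sin (t * η) / η - s * Real.cos (t * η) / η ^ 2)
      (fun t _ => ?_) ?_
    · have d1 : HasDerivAt (fun t => t * η) η t := by simpa using (hasDerivAt_id t).mul_const η
      have d2 : HasDerivAt (fun t => 1 - s * t) (-s) t := by
        simpa using ((hasDerivAt_id t).const_mul s).const_sub 1
      have d3 := ((d2.mul d1.sin).div_const η).sub ((d1.cos.const_mul s).div_const (η ^ 2))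
      refine d3.congr_deriv ?_
      field_simp
      ring
    · exact Continuous.intervalIntegrable (by fun_prop) _ _
  rw [h1, h2, h3, mul_inv_cancel₀ hs.ne']
  simp only [zero_mul, Real.sin_zero, Real.cos_zero, mul_zero, sub_self, zero_div, mul_one,
    zero_sub, sub_neg_eq_add]
  rw [show s⁻¹ * η = η / s by ring]
  field_simp
  ring

lemma kap_nonneg {s : ℝ} (hs : 0 < s) (η : ℝ) : 0 ≤ kap s η := by
  rcases eq_or_ne η 0 with h | h
  · rw [h]
    unfold kap
    simp only [mul_zero, Real.cos_zero, mul_one]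
    exact integral_nonneg fun t => tent_nonneg _
  · rw [kap_nonneg_aux hs h]
    have := Real.cos_le_one (η / s)
    apply div_nonneg _ (sq_nonneg η)
    nlinarith

lemma kap_low {s : ℝ} (hs : 0 < s) {η : ℝ} (h : η ≠ 0) (h1 : |η| ≤ s) :
    4 / Real.pi ^ 2 / s ≤ kap s η := by
  rw [kap_nonneg_aux hs h]
  have h2 : |η / s| ≤ Real.pi := by
    rw [abs_div, abs_of_pos hs]
    have h3 : |η| / s ≤ 1 := (div_le_one hs).2 h1
    linarith [Real.pi_gt_three]
  have h3 := Real.cos_le_one_sub_mul_cos_sq h2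
  have hη : 0 < η ^ 2 := by positivity
  rw [le_div_iff₀ hη]
  have h4 : 2 / Real.pi ^ 2 * (η / s) ^ 2 ≤ 1 - Real.cos (η / s) := by linarith
  calc 4 / Real.pi ^ 2 / s * η ^ 2 = 2 * s * (2 / Real.pi ^ 2 * (η / s) ^ 2) := by field_simp; ring
    _ ≤ 2 * s * (1 - Real.cos (η / s)) := by gcongr

/-- the complex transform in dimension one -/
lemma cft_tent {s : ℝ} (hs : 0 < s) (η : ℝ) :
    ∫ t : ℝ, ((tent (s * t) : ℝ) : ℂ) * Complex.exp (-(((t * η : ℝ) : ℂ) * Complex.I)) =
      ((kap s η : ℝ) : ℂ) := by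
  have h1 : ∀ t : ℝ, ((tent (s * t) : ℝ) : ℂ) * Complex.exp (-(((t * η : ℝ) : ℂ) * Complex.I)) =
      ((tent (s * t) * Real.cos (t * η) : ℝ) : ℂ) +
        (((-(tent (s * t) * Real.sin (t * η)) : ℝ)) : ℂ) * Complex.I := by
    intro t
    rw [← neg_mul, ← Complex.ofReal_neg, Complex.exp_mul_I, ← Complex.ofReal_cos,
      ← Complex.ofReal_sin, Real.cos_neg, Real.sin_neg]
    push_cast
    ring
  rw [integral_congr_ae (Eventually.of_forall h1), integral_add, integral_mul_const,
    integral_complex_ofReal, integral_complex_ofReal]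
  · have h2 : ∫ t, -(tent (s * t) * Real.sin (t * η)) = 0 := by
      have h3 := integral_neg_eq_self (fun t => -(tent (s * t) * Real.sin (t * η))) volume
      have h4 : ∀ t : ℝ, -(tent (s * -t) * Real.sin (-t * η)) =
          -(-(tent (s * t) * Real.sin (t * η))) := by
        intro t
        unfold tent
        rw [mul_neg, abs_neg, neg_mul, Real.sin_neg]
        ring
      rw [integral_congr_ae (Eventually.of_forall h4), integral_neg] at h3
      linarith
    rw [h2]
    unfold kap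
    simp
  · exact (integrable_tent_mul hs (by fun_prop)).ofReal
  · exact ((integrable_tent_mul hs (by fun_prop)).neg.ofReal).mul_const _

/-- the transform of the covariogram -/
noncomputable def kn (s : ℝ) (ξ : Eu n) : ℝ := ∏ i, kap s (ξ i)

lemma kn_nonneg {s : ℝ} (hs : 0 < s) (ξ : Eu n) : 0 ≤ kn s ξ :=
  Finset.prod_nonneg fun i _ => kap_nonneg hs _

lemma cft_cov {s : ℝ} (hs : 0 < s) (ξ : Eu n) :
    ∫ x : Eu n, ((cov (s • x) : ℝ) : ℂ) * Complex.exp (-(((⟪x, ξ⟫ : ℝ) : ℂ) * Complex.I)) =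
      ((kn s ξ : ℝ) : ℂ) := by
  have h1 : ∀ x : Eu n, ((cov (s • x) : ℝ) : ℂ) * Complex.exp (-(((⟪x, ξ⟫ : ℝ) : ℂ) * Complex.I)) =
      (fun y : Fin n → ℝ => ∏ i, (((tent (s * y i) : ℝ) : ℂ) *
        Complex.exp (-(((y i * ξ i : ℝ) : ℂ) * Complex.I))))
        ((MeasurableEquiv.toLp 2 (Fin n → ℝ)).symm x) := by
    intro x
    simp only
    rw [Finset.prod_mul_distrib]
    congr 1
    · unfold cov
      push_cast
      rfl
    · rw [← Complex.exp_sum]
      congr 1
      rw [Finset.sum_neg_distrib, ← Finset.sum_mul]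
      congr 2
      rw [PiLp.inner_apply]
      push_cast
      refine Finset.sum_congr rfl fun i _ => ?_
      simp [mul_comm]
  have h2 := (EuclideanSpace.volume_preserving_symm_measurableEquiv_toLp (Fin n)).integral_comp
    (MeasurableEquiv.measurableEmbedding _) (fun y : Fin n → ℝ => ∏ i, (((tent (s * y i) : ℝ) : ℂ) *
        Complex.exp (-(((y i * ξ i : ℝ) : ℂ) * Complex.I))))
  rw [integral_congr_ae (Eventually.of_forall h1)]
  refine h2.trans ?_
  rw [integral_fintype_prod_volume_eq_prod (fun (i : Fin n) (t : ℝ) => ((tent (s * t) : ℝ) : ℂ) *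
        Complex.exp (-(((t * ξ i : ℝ) : ℂ) * Complex.I)))]
  unfold kn
  rw [Complex.ofReal_prod]
  refine Finset.prod_congr rfl fun i _ => ?_
  exact cft_tent hs (ξ i)

lemma hcs_cov {s : ℝ} (hs : 0 < s) : HasCompactSupport fun x : Eu n => cov (s • x) := by
  refine HasCompactSupport.of_support_subset_isCompact
    (K := {x : Eu n | ∀ i, x i ∈ Icc (-s⁻¹) s⁻¹}) ?_ fun x hx => ?_
  · have h : {x : Eu n | ∀ i, x i ∈ Icc (-s⁻¹) s⁻¹} =
        (EuclideanSpace.equiv (Fin n) ℝ) ⁻¹' (Set.pi univ fun _ => Icc (-s⁻¹) s⁻¹) := by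
      ext x
      simp only [mem_setOf_eq, mem_preimage, Set.mem_pi, mem_univ, true_implies]
      rfl
    rw [h]
    exact (EuclideanSpace.equiv (Fin n) ℝ).toHomeomorph.isCompact_preimage.2
      (isCompact_univ_pi fun _ => isCompact_Icc)
  · intro i
    by_contra h
    apply hx
    have h2 : tent (s * x i) = 0 := by
      apply tent_zero
      rw [abs_mul, abs_of_pos hs]
      by_contra h2
      push Not at h2
      apply h
      have h3 : |x i| ≤ s⁻¹ := by
        rw [← one_div, le_div_iff₀ hs]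
        linarith
      exact abs_le.1 h3
    exact Finset.prod_eq_zero (Finset.mem_univ i) h2

lemma integrable_cov {s : ℝ} (hs : 0 < s) : Integrable fun x : Eu n => cov (s • x) :=
  (continuous_cov.comp (by fun_prop)).integrable_of_hasCompactSupport (hcs_cov hs)

lemma norm_exp_aux (t : ℝ) : ‖Complex.exp (-((t : ℂ) * Complex.I))‖ = 1 := by
  rw [← neg_mul, ← Complex.ofReal_neg]
  exact Complex.norm_exp_ofReal_mul_I _

/-- the pairing with the covariogram -/
lemma pairing {s : ℝ} (hs : 0 < s) (φ : 𝓢(Eu n, ℂ)) :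
    ∫ x, ((cov (s • x) : ℝ) : ℂ) * ft φ x = ∫ ξ, ((kn s ξ : ℝ) : ℂ) * φ ξ := by
  have h1 : ∀ x : Eu n, ((cov (s • x) : ℝ) : ℂ) * ft φ x =
      ∫ ξ, ((cov (s • x) : ℝ) : ℂ) * (φ ξ * Complex.exp (-(((⟪x, ξ⟫ : ℝ) : ℂ) * Complex.I))) := by
    intro x
    unfold ft
    rw [integral_const_mul]
  rw [integral_congr_ae (Eventually.of_forall h1), integral_integral_swap]
  · refine integral_congr_ae (Eventually.of_forall fun ξ => ?_)
    simp only
    rw [← cft_cov hs ξ, ← integral_mul_const]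
    refine integral_congr_ae (Eventually.of_forall fun x => ?_)
    simp only
    ring
  · have h2 : Integrable (fun z : Eu n × Eu n => ((cov (s • z.1) : ℝ) : ℂ) * φ z.2)
        (volume.prod volume) := (integrable_cov hs).ofReal.mul_prod φ.integrable
    have h3 : Integrable (fun z : Eu n × Eu n => (((cov (s • z.1) : ℝ) : ℂ) * φ z.2) *
        Complex.exp (-(((⟪z.1, z.2⟫ : ℝ) : ℂ) * Complex.I))) (volume.prod volume) := by
      refine h2.mul_bdd (c := 1) ?_ (Eventually.of_forall fun z => ?_)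
      · refine Continuous.aestronglyMeasurable ?_
        fun_prop
      · exact (norm_exp_aux _).le
    refine h3.congr (Eventually.of_forall fun z => ?_)
    simp only [Function.uncurry]
    ring

end Pool.Agent.T3h47.RM
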