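import Pool.Agent.T3h47.RM.B

/-!
# The radial mean bodies of the cube: the transform of the moments, lower bound
-/

set_option autoImplicit false
set_option linter.all false
open MeasureTheory Set Filter Topology Metric Module
open scoped ENNReal RealInnerProductSpace FourierTransform SchwartzMap

namespace Pool.Agent.T3h47.RM

open Pool.Agent.Results.MP_fd6526_gt.MeanBodyEmbeds (Body radial meanRadial meanBody mean)

variable {n : ℕ}

lemma continuous_kap {s : ℝ} (hs : 0 < s) : Continuous (kap s) := by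
  unfold kap
  refine continuous_of_dominated (bound := fun t => tent (s * t)) (fun η => ?_) (fun η => ?_)
    (integrable_tent hs) ?_
  · exact (integrable_tent_mul hs (by fun_prop)).aestronglyMeasurable
  · refine Eventually.of_forall fun t => ?_
    rw [norm_mul, Real.norm_eq_abs, Real.norm_eq_abs, abs_of_nonneg (tent_nonneg _)]
    exact mul_le_of_le_one_right (tent_nonneg _) (Real.abs_cos_le_one _)
  · exact Eventually.of_forall fun t => by fun_prop

lemma kap_le_zero {s : ℝ} (hs : 0 < s) (η : ℝ) : kap s η ≤ kap s 0 := by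
  unfold kap
  refine integral_mono (integrable_tent_mul hs (by fun_prop)) (integrable_tent_mul hs (by fun_prop))
    fun t => ?_
  simp only [mul_zero, Real.cos_zero, mul_one]
  exact mul_le_of_le_one_right (tent_nonneg _) (Real.cos_le_one _)

lemma kap_low' {s : ℝ} (hs : 0 < s) {η : ℝ} (h1 : |η| ≤ s) : 4 / Real.pi ^ 2 / s ≤ kap s η := by
  rcases eq_or_ne η 0 with h | h
  · rw [h]
    exact (kap_low hs hs.ne' (abs_of_pos hs).le).trans (kap_le_zero hs s)
  · exact kap_low hs h h1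

lemma continuous_kn {s : ℝ} (hs : 0 < s) : Continuous (kn (n := n) s) := by
  unfold kn
  exact continuous_finset_prod _ fun i _ => (continuous_kap hs).comp (by fun_prop)

lemma kn_le {s : ℝ} (hs : 0 < s) (ξ : Eu n) : kn s ξ ≤ kap s 0 ^ n := by
  unfold kn
  calc ∏ i, kap s (ξ i) ≤ ∏ _i : Fin n, kap s 0 :=
        Finset.prod_le_prod (fun i _ => kap_nonneg hs _) fun i _ => kap_le_zero hs _
    _ = _ := by simp

lemma integrable_kn_mul {s : ℝ} (hs : 0 < s) {f : Eu n → ℝ} (hf : Integrable f) :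
    Integrable fun ξ => kn s ξ * f ξ := by
  refine hf.bdd_mul (c := kap s 0 ^ n) (continuous_kn hs).aestronglyMeasurable
    (Eventually.of_forall fun ξ => ?_)
  rw [Real.norm_eq_abs, abs_of_nonneg (kn_nonneg hs ξ)]
  exact kn_le hs ξ

/-- the mass of the one-dimensional transform near `3/2` -/
lemma kap_int {s : ℝ} (hs : 0 < s) (hs1 : s ≤ 1 / 10) :
    s / 5 ≤ ∫ η in Icc (6 / 5 : ℝ) (9 / 5), kap s η := by
  rw [integral_Icc_eq_integral_Ioc, ← intervalIntegral.integral_of_le (by norm_num)]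
  have h1 : ∫ η in (6 / 5 : ℝ)..(9 / 5), s / 2 * (1 - Real.cos (η / s)) ≤
      ∫ η in (6 / 5 : ℝ)..(9 / 5), kap s η := by
    refine intervalIntegral.integral_mono_on (by norm_num)
      (Continuous.intervalIntegrable (by fun_prop) _ _)
      ((continuous_kap hs).intervalIntegrable _ _) fun η hη => ?_
    have hη0 : 0 < η := by linarith [hη.1]
    rw [kap_nonneg_aux hs hη0.ne']
    have h2 := Real.cos_le_one (η / s)
    rw [le_div_iff₀ (by positivity)]
    have h3 : η ^ 2 ≤ 4 := by nlinarith [hη.2]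
    have h4 : 0 ≤ s * (1 - Real.cos (η / s)) := mul_nonneg hs.le (by linarith)
    nlinarith
  refine le_trans ?_ h1
  rw [intervalIntegral.integral_const_mul, intervalIntegral.integral_sub
    (Continuous.intervalIntegrable (by fun_prop) _ _)
    (Continuous.intervalIntegrable (by fun_prop) _ _),
    intervalIntegral.integral_comp_div (f := Real.cos) hs.ne', integral_cos]
  simp only [intervalIntegral.integral_const, smul_eq_mul, mul_one]
  have h5 := Real.sin_le_one (9 / 5 / s)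
  have h6 := Real.neg_one_le_sin (6 / 5 / s)
  have h7 : s * (Real.sin (9 / 5 / s) - Real.sin (6 / 5 / s)) ≤ 2 * s := by nlinarith
  nlinarith

lemma ae_ne (hn : 1 ≤ n) : ∀ᵐ x : Eu n, x ≠ 0 := by
  haveI : Nonempty (Fin n) := ⟨⟨0, by omega⟩⟩
  rw [ae_iff]
  simp

lemma integrable_F (hn : 1 ≤ n) {q : ℝ} (hq : 0 < q) (hq1 : q < 1) (φ : 𝓢(Eu n, ℂ)) :
    Integrable (fun z : Eu n × ℝ => ((ker q z.1 z.2 : ℝ) : ℂ) * ft φ z.1)
      (volume.prod (volume.restrict (Ioi 0))) := by
  have hm : AEStronglyMeasurable (fun z : Eu n × ℝ => ((ker q z.1 z.2 : ℝ) : ℂ) * ft φ z.1)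
      (volume.prod (volume.restrict (Ioi 0))) := by
    refine Measurable.aestronglyMeasurable ?_
    refine Measurable.mul ?_ ?_
    · exact Complex.measurable_ofReal.comp (measurable_ker q)
    · exact (continuous_ft φ).measurable.comp measurable_fst
  rw [integrable_prod_iff hm]
  refine ⟨?_, ?_⟩
  · filter_upwards [ae_ne hn] with x hx
    exact ((integrable_ker hq hq1 hx).ofReal).mul_const _
  · have hb : Integrable fun x : Eu n => ‖ft φ x‖ + q / (1 - q) * n * (‖x‖ ^ 1 * ‖ft φ x‖) :=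
      (integrable_ft φ).norm.add ((integrable_ft_pow φ 1).const_mul _)
    refine hb.mono' hm.norm.integral_prod_right' ?_
    filter_upwards [ae_ne hn] with x hx
    have h1 : ∫ y in Ioi (0 : ℝ), ‖((ker q x y : ℝ) : ℂ) * ft φ x‖ =
        (∫ y in Ioi (0 : ℝ), ker q x y) * ‖ft φ x‖ := by
      rw [← integral_mul_const]
      refine setIntegral_congr_fun measurableSet_Ioi fun y hy => ?_
      rw [norm_mul, Complex.norm_real, Real.norm_eq_abs, abs_of_nonneg (ker_nonneg hq x hy)]
    have h0 : 0 ≤ ∫ y in Ioi (0 : ℝ), ker q x y :=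
      setIntegral_nonneg measurableSet_Ioi fun y hy => ker_nonneg hq x hy
    rw [h1, Real.norm_eq_abs, abs_of_nonneg (mul_nonneg h0 (norm_nonneg _))]
    have h2 := int_ker_le hq hq1 hx
    have h3 := norm_nonneg (ft φ x)
    calc (∫ y in Ioi (0 : ℝ), ker q x y) * ‖ft φ x‖ ≤ (1 + q / (1 - q) * (n * ‖x‖)) * ‖ft φ x‖ :=
          mul_le_mul_of_nonneg_right h2 h3
      _ = _ := by ring

/-- the transform of the moments -/
lemma T_formula (hn : 1 ≤ n) {q : ℝ} (hq : 0 < q) (hq1 : q < 1) (φ : 𝓢(Eu n, ℂ)) (h0 : φ 0 = 0) :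
    ∫ x, ((mean (cube n) q x : ℝ) : ℂ) * ft φ x =
      -∫ s in Ioi (0 : ℝ), ((q * s ^ (-1 - q) : ℝ) : ℂ) * ∫ ξ, ((kn s ξ : ℝ) : ℂ) * φ ξ := by
  have h1 : ∫ x, ((mean (cube n) q x : ℝ) : ℂ) * ft φ x =
      ∫ x, ∫ s in Ioi (0 : ℝ), ((ker q x s : ℝ) : ℂ) * ft φ x := by
    refine integral_congr_ae ?_
    filter_upwards [ae_ne hn] with x hx
    rw [mean_formula hq hq1 hx, integral_mul_const, integral_complex_ofReal]
  rw [h1, integral_integral_swap (integrable_F hn hq hq1 φ), ← integral_neg]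
  refine setIntegral_congr_fun measurableSet_Ioi fun s hs => ?_
  have hs' : 0 < s := hs
  have h2 : ∀ x : Eu n, ((ker q x s : ℝ) : ℂ) * ft φ x =
      ((q * s ^ (-1 - q) : ℝ) : ℂ) * (ft φ x - ((cov (s • x) : ℝ) : ℂ) * ft φ x) := by
    intro x
    unfold ker
    push_cast
    ring
  have h3 : Integrable fun x : Eu n => ((cov (s • x) : ℝ) : ℂ) * ft φ x := by
    refine (integrable_ft φ).bdd_mul (c := 1) ?_ (Eventually.of_forall fun x => ?_)
    · exact (Complex.continuous_ofReal.comp (continuous_cov.comp (by fun_prop))).aestronglyMeasurable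
    · rw [Complex.norm_real, Real.norm_eq_abs, abs_of_nonneg (cov_nonneg _)]
      exact cov_le_one _
  rw [integral_congr_ae (Eventually.of_forall h2), integral_const_mul,
    integral_sub (integrable_ft φ) h3, integral_ft φ h0, pairing hs', zero_sub, mul_neg]

lemma integrable_T (hn : 1 ≤ n) {q : ℝ} (hq : 0 < q) (hq1 : q < 1) (φ : 𝓢(Eu n, ℂ)) (h0 : φ 0 = 0) :
    IntegrableOn (fun s : ℝ => ((q * s ^ (-1 - q) : ℝ) : ℂ) * ∫ ξ, ((kn s ξ : ℝ) : ℂ) * φ ξ)
      (Ioi 0) := by
  have h := (integrable_F hn hq hq1 φ).integral_prod_right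
  have h' := h.neg
  refine h'.congr ?_
  rw [EventuallyEq, ae_restrict_iff' measurableSet_Ioi]
  refine Eventually.of_forall fun s hs => ?_
  have hs' : 0 < s := hs
  simp only [Pi.neg_apply]
  have h2 : ∀ x : Eu n, ((ker q x s : ℝ) : ℂ) * ft φ x =
      ((q * s ^ (-1 - q) : ℝ) : ℂ) * (ft φ x - ((cov (s • x) : ℝ) : ℂ) * ft φ x) := by
    intro x
    unfold ker
    push_cast
    ring
  have h3 : Integrable fun x : Eu n => ((cov (s • x) : ℝ) : ℂ) * ft φ x := by
    refine (integrable_ft φ).bdd_mul (c := 1) ?_ (Eventually.of_forall fun x => ?_)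
    · exact (Complex.continuous_ofReal.comp (continuous_cov.comp (by fun_prop))).aestronglyMeasurable
    · rw [Complex.norm_real, Real.norm_eq_abs, abs_of_nonneg (cov_nonneg _)]
      exact cov_le_one _
  rw [integral_congr_ae (Eventually.of_forall h2), integral_const_mul,
    integral_sub (integrable_ft φ) h3, integral_ft φ h0, pairing hs', zero_sub, mul_neg, neg_neg]

/-- the small boxes -/
def Bx (n : ℕ) (m : ℝ) : Set (Eu n) :=
  {ξ | ∀ i : Fin n, ξ i ∈ (if (i : ℕ) = 0 then Icc (6 / 5 : ℝ) (9 / 5) else Icc (-m) m)}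

/-- lower bound for the pairing with a test function -/
lemma A_low (hn : 1 ≤ n) {m s : ℝ} (hm : 0 < m) (hms : m ≤ s) (hsm : s ≤ 2 * m) (hm1 : m ≤ 1 / 20)
    {ψ : Eu n → ℝ} (hi : Integrable ψ) (hψ0 : ∀ ξ, 0 ≤ ψ ξ) (hψ1 : ∀ ξ ∈ Bx n m, 1 ≤ ψ ξ) :
    s / 5 * (4 / Real.pi ^ 2) ^ (n - 1) ≤ ∫ ξ, kn s ξ * ψ ξ := by
  have hs : 0 < s := lt_of_lt_of_le hm hms
  set i0 : Fin n := ⟨0, by omega⟩ with hi0
  let g : Fin n → ℝ → ℝ := fun i => if i = i0 then (Icc (6 / 5 : ℝ) (9 / 5)).indicator (kap s) else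
    (Icc (-m) m).indicator (fun _ => 4 / Real.pi ^ 2 / s)
  have hg0 : ∀ i t, 0 ≤ g i t := by
    intro i t
    simp only [g]
    split_ifs
    · exact indicator_nonneg (fun t _ => kap_nonneg hs t) t
    · exact indicator_nonneg (fun t _ => by positivity) t
  have hle : ∫ ξ : Eu n, ∏ i, g i (ξ i) ≤ ∫ ξ, kn s ξ * ψ ξ := by
    refine integral_mono_of_nonneg (Eventually.of_forall fun ξ => Finset.prod_nonneg fun i _ => hg0 i _)
      (integrable_kn_mul hs hi) (Eventually.of_forall fun ξ => ?_)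
    simp only
    by_cases hξ : ξ ∈ Bx n m
    · have h1 : ∏ i, g i (ξ i) ≤ kn s ξ := by
        unfold kn
        refine Finset.prod_le_prod (fun i _ => hg0 i _) fun i _ => ?_
        have h2 := hξ i
        simp only [g]
        by_cases hi' : i = i0
        · rw [if_pos hi']
          rw [if_pos (by rw [hi', hi0])] at h2
          rw [indicator_of_mem h2]
        · rw [if_neg hi']
          have hne : (i : ℕ) ≠ 0 := fun h => hi' (Fin.ext h)
          rw [if_neg hne] at h2
          rw [indicator_of_mem h2]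
          refine kap_low' hs ?_
          rw [abs_le]
          exact ⟨by linarith [h2.1], by linarith [h2.2]⟩
      calc ∏ i, g i (ξ i) ≤ kn s ξ := h1
        _ ≤ kn s ξ * ψ ξ := le_mul_of_one_le_right (kn_nonneg hs ξ) (hψ1 ξ hξ)
    · have h1 : ∏ i, g i (ξ i) = 0 := by
        unfold Bx at hξ
        simp only [mem_setOf_eq, not_forall] at hξ
        obtain ⟨i, hi'⟩ := hξ
        refine Finset.prod_eq_zero (Finset.mem_univ i) ?_
        simp only [g]
        by_cases hii : i = i0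
        · rw [if_pos hii]
          rw [if_pos (by rw [hii, hi0])] at hi'
          exact indicator_of_notMem hi' _
        · rw [if_neg hii]
          have hne : (i : ℕ) ≠ 0 := fun h => hii (Fin.ext h)
          rw [if_neg hne] at hi'
          exact indicator_of_notMem hi' _
      rw [h1]
      exact mul_nonneg (kn_nonneg hs ξ) (hψ0 ξ)
  refine le_trans ?_ hle
  have h2 := (EuclideanSpace.volume_preserving_symm_measurableEquiv_toLp (Fin n)).integral_comp
    (MeasurableEquiv.measurableEmbedding _) (fun y : Fin n → ℝ => ∏ i, g i (y i))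
  have h3 : ∫ ξ : Eu n, ∏ i, g i (ξ i) = ∏ i, ∫ t, g i t := by
    refine Eq.trans h2 ?_
    exact integral_fintype_prod_volume_eq_prod g
  rw [h3]
  have h4 : ∀ i, (if i = i0 then s / 5 else 4 / Real.pi ^ 2) ≤ ∫ t, g i t := by
    intro i
    simp only [g]
    by_cases hi' : i = i0
    · rw [if_pos hi', if_pos hi', integral_indicator measurableSet_Icc]
      exact kap_int hs (by linarith)
    · rw [if_neg hi', if_neg hi', integral_indicator measurableSet_Icc]
      simp only [integral_const, MeasurableSet.univ, measureReal_restrict_apply, univ_inter,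
        smul_eq_mul, Real.volume_real_Icc]
      rw [max_eq_left (by linarith : 0 ≤ m - -m)]
      have h5 : 4 / Real.pi ^ 2 = s * (4 / Real.pi ^ 2 / s) := by field_simp
      calc 4 / Real.pi ^ 2 = s * (4 / Real.pi ^ 2 / s) := h5
        _ ≤ (m - -m) * (4 / Real.pi ^ 2 / s) := by
            apply mul_le_mul_of_nonneg_right _ (by positivity)
            linarith
  have h5 : s / 5 * (4 / Real.pi ^ 2) ^ (n - 1) =
      ∏ i : Fin n, (if i = i0 then s / 5 else 4 / Real.pi ^ 2) := by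
    rw [Fintype.prod_eq_mul_prod_compl i0, if_pos rfl]
    congr 1
    rw [Finset.prod_congr rfl (g := fun _ => 4 / Real.pi ^ 2), Finset.prod_const,
      Finset.card_compl, Finset.card_singleton, Fintype.card_fin]
    intro i hi'
    rw [if_neg]
    simpa using hi'
  rw [h5]
  refine Finset.prod_le_prod (fun i _ => ?_) fun i _ => h4 i
  split_ifs <;> positivity

/-- **lower bound for the transform** -/
lemma T_low (hn : 1 ≤ n) {q : ℝ} (hq : 0 < q) (hq1 : q < 1) {m : ℝ} (hm : 0 < m) (hm1 : m ≤ 1 / 20)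
    (φ : 𝓢(Eu n, ℂ)) {ψ : Eu n → ℝ} (hφ : ∀ ξ, φ ξ = (ψ ξ : ℂ)) (h0 : φ 0 = 0)
    (hψ0 : ∀ ξ, 0 ≤ ψ ξ) (hψ1 : ∀ ξ ∈ Bx n m, 1 ≤ ψ ξ) :
    ∃ I : ℝ, ∫ x, ((mean (cube n) q x : ℝ) : ℂ) * ft φ x = -(I : ℂ) ∧
      m * (q * (2 * m) ^ (-q) * ((4 / Real.pi ^ 2) ^ (n - 1) / 5)) ≤ I := by
  have hi : Integrable ψ := by
    have h := φ.integrable (μ := volume)
    have h1 : Integrable fun ξ => ((ψ ξ : ℝ) : ℂ) := h.congr (Eventually.of_forall hφ)
    exact h1.re.congr (Eventually.of_forall fun ξ => by simp)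
  have hA : ∀ s : ℝ, ∫ ξ, ((kn s ξ : ℝ) : ℂ) * φ ξ = ((∫ ξ, kn s ξ * ψ ξ : ℝ) : ℂ) := by
    intro s
    rw [← integral_complex_ofReal]
    refine integral_congr_ae (Eventually.of_forall fun ξ => ?_)
    simp only
    rw [hφ, Complex.ofReal_mul]
  have hint : IntegrableOn (fun s : ℝ => q * s ^ (-1 - q) * ∫ ξ, kn s ξ * ψ ξ) (Ioi 0) := by
    have h1 := integrable_T hn hq hq1 φ h0
    refine h1.re.congr (Eventually.of_forall fun s => ?_)
    simp only [hA]
    rw [← Complex.ofReal_mul]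
    simp
  refine ⟨∫ s in Ioi (0 : ℝ), q * s ^ (-1 - q) * ∫ ξ, kn s ξ * ψ ξ, ?_, ?_⟩
  · rw [T_formula hn hq hq1 φ h0]
    congr 1
    rw [← integral_complex_ofReal]
    refine integral_congr_ae (Eventually.of_forall fun s => ?_)
    simp only [hA]
    rw [← Complex.ofReal_mul]
  · have hsub : Icc m (2 * m) ⊆ Ioi (0 : ℝ) := fun s hs => lt_of_lt_of_le hm hs.1
    have h1 : ∫ s in Icc m (2 * m), q * s ^ (-1 - q) * ∫ ξ, kn s ξ * ψ ξ ≤
        ∫ s in Ioi (0 : ℝ), q * s ^ (-1 - q) * ∫ ξ, kn s ξ * ψ ξ := by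
      refine setIntegral_mono_set hint ?_ (Eventually.of_forall hsub)
      rw [EventuallyLE, ae_restrict_iff' measurableSet_Ioi]
      refine Eventually.of_forall fun s hs => ?_
      have hs' : 0 < s := hs
      have h2 : 0 ≤ ∫ ξ, kn s ξ * ψ ξ := integral_nonneg fun ξ => mul_nonneg (kn_nonneg hs' ξ) (hψ0 ξ)
      have h3 : 0 ≤ s ^ (-1 - q) := Real.rpow_nonneg hs'.le _
      simp only [Pi.zero_apply]
      positivity
    refine le_trans ?_ h1
    have h2 : ∫ s in Icc m (2 * m), q * (2 * m) ^ (-q) * ((4 / Real.pi ^ 2) ^ (n - 1) / 5) ≤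
        ∫ s in Icc m (2 * m), q * s ^ (-1 - q) * ∫ ξ, kn s ξ * ψ ξ := by
      refine setIntegral_mono_on (integrable_const _) (hint.mono_set hsub) measurableSet_Icc
        fun s hs => ?_
      have hs' : 0 < s := lt_of_lt_of_le hm hs.1
      have h3 := A_low hn hm hs.1 hs.2 hm1 hi hψ0 hψ1
      have h4 : 0 ≤ s ^ (-1 - q) := Real.rpow_nonneg hs'.le _
      have h5 : (2 * m) ^ (-q) ≤ s ^ (-q) :=
        Real.rpow_le_rpow_of_nonpos hs' hs.2 (by linarith)
      have h6 : s ^ (-q) = s ^ (-1 - q) * s := by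
        rw [← Real.rpow_add_one hs'.ne']
        congr 1
        ring
      have hκ : 0 ≤ (4 / Real.pi ^ 2) ^ (n - 1) / 5 := by positivity
      calc q * (2 * m) ^ (-q) * ((4 / Real.pi ^ 2) ^ (n - 1) / 5)
          ≤ q * s ^ (-q) * ((4 / Real.pi ^ 2) ^ (n - 1) / 5) := by gcongr
        _ = q * s ^ (-1 - q) * (s / 5 * (4 / Real.pi ^ 2) ^ (n - 1)) := by rw [h6]; ring
        _ ≤ _ := mul_le_mul_of_nonneg_left h3 (mul_nonneg hq.le h4)
    refine le_trans (le_of_eq ?_) h2
    rw [integral_const]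
    simp only [MeasurableSet.univ, measureReal_restrict_apply, univ_inter,
        smul_eq_mul, Real.volume_real_Icc]
    rw [max_eq_left (by linarith : 0 ≤ 2 * m - m)]
    ring

end Pool.Agent.T3h47.RM
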