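import Pool.Agent.T3h47.RM.C

/-!
# The radial mean bodies of the cube: no function in `L^n` of a shell gives the transform
-/

set_option autoImplicit false
set_option linter.all false
open MeasureTheory Set Filter Topology Metric Module
open scoped ENNReal RealInnerProductSpace FourierTransform SchwartzMap Manifold

namespace Pool.Agent.T3h47.RM

open Pool.Agent.Results.MP_fd6526_gt.MeanBodyEmbeds (Body radial meanRadial meanBody mean)

variable {n : ℕ}

/-- the larger boxes -/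
def Cx (n : ℕ) (m : ℝ) : Set (Eu n) :=
  {ξ | ∀ i : Fin n, ξ i ∈ (if (i : ℕ) = 0 then Icc (11 / 10 : ℝ) (19 / 10) else
    Icc (-(2 * m)) (2 * m))}

/-- the open boxes -/
def Ox (n : ℕ) (m : ℝ) : Set (Eu n) :=
  {ξ | ∀ i : Fin n, ξ i ∈ (if (i : ℕ) = 0 then Ioo (11 / 10 : ℝ) (19 / 10) else
    Ioo (-(2 * m)) (2 * m))}

/-- the shell -/
def Sh (n : ℕ) : Set (Eu n) := {ξ | 1 ≤ ‖ξ‖ ∧ ‖ξ‖ ≤ 2}

lemma pre_box (A : Fin n → Set ℝ) : {ξ : Eu n | ∀ i, ξ i ∈ A i} =
    (EuclideanSpace.equiv (Fin n) ℝ) ⁻¹' (Set.pi univ A) := by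
  ext x
  simp only [mem_setOf_eq, mem_preimage, Set.mem_pi, mem_univ, true_implies]
  rfl

lemma isClosed_box {A : Fin n → Set ℝ} (h : ∀ i, IsClosed (A i)) :
    IsClosed {ξ : Eu n | ∀ i, ξ i ∈ A i} := by
  rw [pre_box]
  exact (isClosed_set_pi fun i _ => h i).preimage (EuclideanSpace.equiv (Fin n) ℝ).continuous

lemma isOpen_box {A : Fin n → Set ℝ} (h : ∀ i, IsOpen (A i)) :
    IsOpen {ξ : Eu n | ∀ i, ξ i ∈ A i} := by
  rw [pre_box]
  exact (isOpen_set_pi finite_univ fun i _ => h i).preimage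
    (EuclideanSpace.equiv (Fin n) ℝ).continuous

lemma isCompact_box {A : Fin n → Set ℝ} (h : ∀ i, IsCompact (A i)) :
    IsCompact {ξ : Eu n | ∀ i, ξ i ∈ A i} := by
  rw [pre_box]
  exact (EuclideanSpace.equiv (Fin n) ℝ).toHomeomorph.isCompact_preimage.2
    (isCompact_univ_pi h)

lemma isClosed_Bx (m : ℝ) : IsClosed (Bx n m) :=
  isClosed_box fun i => by split_ifs <;> exact isClosed_Icc

lemma isCompact_Cx (m : ℝ) : IsCompact (Cx n m) :=
  isCompact_box fun i => by split_ifs <;> exact isCompact_Icc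

lemma isOpen_Ox (m : ℝ) : IsOpen (Ox n m) :=
  isOpen_box fun i => by split_ifs <;> exact isOpen_Ioo

lemma Ox_sub (m : ℝ) : Ox n m ⊆ Cx n m := by
  intro ξ hξ i
  have := hξ i
  split_ifs at this ⊢ <;> exact Ioo_subset_Icc_self this

lemma Bx_sub {m : ℝ} (hm : 0 < m) : Bx n m ⊆ Ox n m := by
  intro ξ hξ i
  have := hξ i
  split_ifs at this ⊢
  · exact ⟨by linarith [this.1], by linarith [this.2]⟩
  · exact ⟨by linarith [this.1], by linarith [this.2]⟩

/-- test functions -/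
lemma exists_bump {m : ℝ} (hm : 0 < m) : ∃ (φ : 𝓢(Eu n, ℂ)) (ψ : Eu n → ℝ),
    (∀ ξ, φ ξ = (ψ ξ : ℂ)) ∧ HasCompactSupport φ ∧ tsupport φ ⊆ Cx n m ∧ (∀ ξ, 0 ≤ ψ ξ) ∧
      (∀ ξ, ψ ξ ≤ 1) ∧ ∀ ξ ∈ Bx n m, 1 ≤ ψ ξ := by
  obtain ⟨f, hf0, hf1, hf2⟩ := exists_contMDiffMap_zero_one_of_isClosed (n := ⊤) (𝓘(ℝ, Eu n))
    (isOpen_Ox (n := n) m).isClosed_compl (isClosed_Bx m)
    (Set.disjoint_left.2 fun x hx hx2 => hx (Bx_sub hm hx2))
  have hsm : ContDiff ℝ ((⊤ : ℕ∞) : WithTop ℕ∞) (fun x => f x) := f.contMDiff.contDiff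
  have hsupp : Function.support (fun x => f x) ⊆ Cx n m := by
    intro x hx
    by_contra hcon
    exact hx (hf0 fun h => hcon (Ox_sub m h))
  have hts : tsupport (fun x => f x) ⊆ Cx n m :=
    closure_minimal hsupp (isCompact_Cx m).isClosed
  have hcs : HasCompactSupport (fun x => f x) :=
    HasCompactSupport.of_support_subset_isCompact (isCompact_Cx m) hsupp
  have hcs' : HasCompactSupport (Complex.ofRealCLM ∘ fun x => f x) := hcs.comp_left rfl
  refine ⟨hcs'.toSchwartzMap (Complex.ofRealCLM.contDiff.comp hsm), fun x => f x, fun ξ => rfl, hcs',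
    ?_, fun ξ => (hf2 ξ).1, fun ξ => (hf2 ξ).2, fun ξ hξ => (hf1 hξ).ge⟩
  have h5 : tsupport (Complex.ofRealCLM ∘ fun x => f x) ⊆ Cx n m :=
    (tsupport_comp_subset rfl _).trans hts
  exact h5

lemma norm_sq_eu (ξ : Eu n) : ‖ξ‖ ^ 2 = ∑ i, ξ i ^ 2 := by
  rw [EuclideanSpace.norm_sq_eq]
  simp

lemma Cx_sub_Sh (hn : 1 ≤ n) {m : ℝ} (hm : 0 < m) (hmn : m ≤ 1 / (20 * n)) : Cx n m ⊆ Sh n := by
  intro ξ hξ
  set i0 : Fin n := ⟨0, by omega⟩ with hi0
  have h0 := hξ i0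
  rw [if_pos rfl] at h0
  have hn' : (1 : ℝ) ≤ n := by exact_mod_cast hn
  constructor
  · have := PiLp.norm_apply_le ξ i0
    rw [Real.norm_eq_abs] at this
    have h1 := le_abs_self (ξ i0)
    linarith [h0.1]
  · have h2 : ‖ξ‖ ^ 2 ≤ 4 := by
      rw [norm_sq_eu]
      have h3 : ∑ i, ξ i ^ 2 ≤ ∑ i : Fin n, ((if i = i0 then (361 / 100 : ℝ) else 0) + 4 * m ^ 2) := by
        refine Finset.sum_le_sum fun i _ => ?_
        have hi := hξ i
        by_cases h : i = i0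
        · rw [if_pos h]
          rw [h, if_pos rfl] at hi
          rw [h]
          nlinarith [hi.1, hi.2, sq_nonneg m]
        · rw [if_neg h]
          rw [if_neg (fun h' => h (Fin.ext h'))] at hi
          nlinarith [hi.1, hi.2]
      refine h3.trans ?_
      rw [Finset.sum_add_distrib]
      simp only [Finset.sum_ite_eq', Finset.mem_univ, if_true, Finset.sum_const, Finset.card_univ,
        Fintype.card_fin, nsmul_eq_mul]
      have h4 : (n : ℝ) * m ≤ 1 / 20 := by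
        rw [le_div_iff₀ (by positivity)] at hmn
        linarith
      have h5 : m ≤ 1 / 20 := by nlinarith
      nlinarith
    have h3 : 0 ≤ ‖ξ‖ := norm_nonneg ξ
    nlinarith

lemma volume_Cx (hn : 1 ≤ n) {m : ℝ} (hm : 0 < m) :
    volume (Cx n m) ≤ ENNReal.ofReal ((4 * m) ^ (n - 1)) := by
  unfold Cx
  rw [volume_box, Fintype.prod_eq_mul_prod_compl (⟨0, by omega⟩ : Fin n), if_pos rfl, Real.volume_Icc]
  have h1 : ∏ i ∈ ({⟨0, by omega⟩}ᶜ : Finset (Fin n)), volume (if (i : ℕ) = 0 then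
      Icc (11 / 10 : ℝ) (19 / 10) else Icc (-(2 * m)) (2 * m)) = ENNReal.ofReal (4 * m) ^ (n - 1) := by
    rw [Finset.prod_congr rfl (g := fun _ => ENNReal.ofReal (4 * m)), Finset.prod_const,
      Finset.card_compl, Finset.card_singleton, Fintype.card_fin]
    intro i hi
    rw [if_neg, Real.volume_Icc]
    · congr 1
      ring
    · intro h
      simp only [Finset.mem_compl, Finset.mem_singleton] at hi
      exact hi (Fin.ext h)
  rw [h1, ← ENNReal.ofReal_pow (by positivity)]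
  calc ENNReal.ofReal (19 / 10 - 11 / 10) * ENNReal.ofReal ((4 * m) ^ (n - 1))
      ≤ 1 * ENNReal.ofReal ((4 * m) ^ (n - 1)) := by
        gcongr
        rw [← ENNReal.ofReal_one]
        exact ENNReal.ofReal_le_ofReal (by norm_num)
    _ = _ := one_mul _

/-- the pairing with a function in `L^n` of the shell -/
lemma hold (hn : 2 ≤ n) {h : Eu n → ℂ} (hloc : LocallyIntegrableOn h {0}ᶜ)
    (hJ : ∫⁻ ξ in Sh n, ‖h ξ‖ₑ ^ n ≠ ∞) {m : ℝ} (hm : 0 < m) (hmn : m ≤ 1 / (20 * n))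
    (φ : 𝓢(Eu n, ℂ)) {ψ : Eu n → ℝ} (hφ : ∀ ξ, φ ξ = (ψ ξ : ℂ)) (hts : tsupport φ ⊆ Cx n m)
    (hψ0 : ∀ ξ, 0 ≤ ψ ξ) (hψ1 : ∀ ξ, ψ ξ ≤ 1) :
    ‖∫ ξ, h ξ * φ ξ‖ ≤ ((∫⁻ ξ in Sh n, ‖h ξ‖ₑ ^ n) ^ (1 / (n : ℝ))).toReal *
      ((4 * m) ^ (n - 1)) ^ (((n : ℝ) - 1) / n) := by
  have hn0 : (0 : ℝ) < n := by
    have : 0 < n := by omega
    exact_mod_cast this
  have hn1 : (1 : ℝ) < n := by
    have : 1 < n := by omega
    exact_mod_cast this
  have hsub := Cx_sub_Sh (by omega : 1 ≤ n) hm hmn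
  have h0 : Cx n m ⊆ {0}ᶜ := by
    intro ξ hξ h0
    have := (hsub hξ).1
    rw [mem_singleton_iff.1 h0, norm_zero] at this
    linarith
  have hmeasC : MeasurableSet (Cx n m) := (isCompact_Cx m).isClosed.measurableSet
  have hae : AEStronglyMeasurable h (volume.restrict (Cx n m)) :=
    (hloc.aestronglyMeasurable).mono_measure (Measure.restrict_mono h0 le_rfl)
  have hJ' : (∫⁻ ξ in Sh n, ‖h ξ‖ₑ ^ n) ^ (1 / (n : ℝ)) ≠ ∞ :=
    ENNReal.rpow_ne_top_of_nonneg (by positivity) hJ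
  have hconj : (n : ℝ).HolderConjugate ((n : ℝ) / ((n : ℝ) - 1)) :=
    Real.HolderConjugate.conjExponent hn1
  -- pointwise
  have e1 : ‖∫ ξ, h ξ * φ ξ‖ₑ ≤ ∫⁻ ξ in Cx n m, ‖h ξ‖ₑ := by
    refine (enorm_integral_le_lintegral_enorm _).trans ?_
    rw [← lintegral_indicator hmeasC]
    refine lintegral_mono fun ξ => ?_
    by_cases hξ : ξ ∈ Cx n m
    · rw [indicator_of_mem hξ, enorm_mul]
      have : ‖φ ξ‖ₑ ≤ 1 := by
        rw [← ofReal_norm, ← ENNReal.ofReal_one]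
        refine ENNReal.ofReal_le_ofReal ?_
        rw [hφ, Complex.norm_real, Real.norm_eq_abs, abs_of_nonneg (hψ0 ξ)]
        exact hψ1 ξ
      calc ‖h ξ‖ₑ * ‖φ ξ‖ₑ ≤ ‖h ξ‖ₑ * 1 := by gcongr
        _ = _ := mul_one _
    · rw [indicator_of_notMem hξ]
      have : φ ξ = 0 := image_eq_zero_of_notMem_tsupport fun h => hξ (hts h)
      rw [this, mul_zero]
      simp
  have e2 : ∫⁻ ξ in Cx n m, ‖h ξ‖ₑ ≤ (∫⁻ ξ in Sh n, ‖h ξ‖ₑ ^ n) ^ (1 / (n : ℝ)) *
      ENNReal.ofReal (((4 * m) ^ (n - 1)) ^ (((n : ℝ) - 1) / n)) := by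
    have h1 := ENNReal.lintegral_mul_le_Lp_mul_Lq (volume.restrict (Cx n m)) hconj
      hae.enorm (aemeasurable_const (b := (1 : ℝ≥0∞)))
    simp only [Pi.mul_apply, mul_one, ENNReal.one_rpow, lintegral_const, one_mul,
      ENNReal.rpow_natCast, MeasurableSet.univ, Measure.restrict_apply, univ_inter] at h1
    refine h1.trans ?_
    refine mul_le_mul' ?_ ?_
    · refine ENNReal.rpow_le_rpow ?_ (by positivity)
      exact lintegral_mono' (Measure.restrict_mono hsub le_rfl) le_rfl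
    · rw [one_div, inv_div, ← ENNReal.ofReal_rpow_of_nonneg (by positivity)
        (div_nonneg (by linarith) hn0.le)]
      exact ENNReal.rpow_le_rpow (volume_Cx (by omega) hm) (div_nonneg (by linarith) hn0.le)
  have e3 := e1.trans e2
  have e4 := ENNReal.toReal_mono (ENNReal.mul_ne_top hJ' ENNReal.ofReal_ne_top) e3
  rw [ENNReal.toReal_mul, ENNReal.toReal_ofReal (by positivity), toReal_enorm] at e4
  exact e4

/-- **no function in `L^n` of the shell represents the transform away from the origin** -/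
theorem main_a (hn : 3 ≤ n) {p : ℝ} (hp : -1 < p) (hp0 : p < 0) (h : Eu n → ℂ)
    (hloc : LocallyIntegrableOn h {0}ᶜ)
    (hrep : ∀ φ : 𝓢(Eu n, ℂ), HasCompactSupport φ → (0 : Eu n) ∉ tsupport φ →
      (Real.Gamma (p / 2) : ℂ) * ∫ x, ((radial (meanBody (cube n) p) x ^ p : ℝ) : ℂ) * ft φ x =
        ∫ ξ, h ξ * φ ξ) :
    ∫⁻ ξ in Sh n, ‖h ξ‖ₑ ^ n = ∞ := by
  by_contra hJ
  have hn3 : (3 : ℝ) ≤ n := by exact_mod_cast hn
  set J := ((∫⁻ ξ in Sh n, ‖h ξ‖ₑ ^ n) ^ (1 / (n : ℝ))).toReal with hJd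
  have hJ0 : 0 ≤ J := ENNReal.toReal_nonneg
  have hΓ : Real.Gamma (p / 2) ≠ 0 := by
    refine Real.Gamma_ne_zero fun k => ?_
    rcases Nat.eq_zero_or_pos k with hk | hk
    · rw [hk]
      simp only [Nat.cast_zero, neg_zero]
      linarith
    · have : (1 : ℝ) ≤ k := by exact_mod_cast hk
      linarith
  set c := |Real.Gamma (p / 2)| * (-p * ((4 / Real.pi ^ 2) ^ (n - 1) / 5)) with hc
  have hcpos : 0 < c := by
    have h1 : 0 < |Real.Gamma (p / 2)| := abs_pos.2 hΓ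
    have h2 : 0 < -p := by linarith
    have h3 : 0 < (4 / Real.pi ^ 2) ^ (n - 1) / 5 := by
      have := Real.pi_pos
      positivity
    positivity
  -- the inequality
  have key : ∀ m : ℝ, 0 < m → m ≤ 1 / (20 * n) → c ≤ 4 * J * (4 * m) ^ (1 / 3 : ℝ) := by
    intro m hm hmn
    have hm20 : m ≤ 1 / 20 := by
      refine hmn.trans ?_
      apply one_div_le_one_div_of_le (by norm_num)
      nlinarith
    obtain ⟨φ, ψ, hφ, hcs, hts, hψ0, hψ1, hψ2⟩ := exists_bump (n := n) hm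
    have hsub := Cx_sub_Sh (by omega : 1 ≤ n) hm hmn
    have h0 : (0 : Eu n) ∉ tsupport φ := by
      intro h0
      have := (hsub (hts h0)).1
      rw [norm_zero] at this
      linarith
    have h00 : φ 0 = 0 := image_eq_zero_of_notMem_tsupport h0
    obtain ⟨I, hI, hI2⟩ := T_low (by omega : 1 ≤ n) (q := -p) (by linarith) (by linarith) hm hm20 φ hφ
      h00 hψ0 hψ2
    have h1 := hrep φ hcs h0
    have h2 : ∫ x, ((radial (meanBody (cube n) p) x ^ p : ℝ) : ℂ) * ft φ x = -(I : ℂ) := by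
      rw [← hI]
      refine integral_congr_ae ?_
      filter_upwards [ae_ne (by omega : 1 ≤ n)] with x hx
      rw [mean_eq hp hp0 hx]
    rw [h2] at h1
    have h3 := hold (by omega) hloc hJ hm hmn φ hφ hts hψ0 hψ1
    rw [← h1, ← hJd, norm_mul, norm_neg, Complex.norm_real, Complex.norm_real, Real.norm_eq_abs,
      Real.norm_eq_abs] at h3
    have h4 : (1 : ℝ) ≤ (2 * m) ^ (- -p) := by
      rw [neg_neg]
      exact Real.one_le_rpow_of_pos_of_le_one_of_nonpos (by positivity) (by linarith) hp0.le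
    have h5 : m * (-p * ((4 / Real.pi ^ 2) ^ (n - 1) / 5)) ≤ |I| := by
      refine le_trans ?_ (hI2.trans (le_abs_self I))
      have hκ : 0 ≤ (4 / Real.pi ^ 2) ^ (n - 1) / 5 := by positivity
      have hp' : 0 < -p := by linarith
      apply mul_le_mul_of_nonneg_left _ hm.le
      apply mul_le_mul_of_nonneg_right _ hκ
      nlinarith
    have h6 : ((4 * m) ^ (n - 1)) ^ (((n : ℝ) - 1) / n) ≤ 4 * m * (4 * m) ^ (1 / 3 : ℝ) := by
      have h4m : 0 < 4 * m := by positivity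
      have h4m1 : 4 * m ≤ 1 := by linarith
      have e1 : ((4 * m) ^ (n - 1) : ℝ) = (4 * m) ^ ((n : ℝ) - 1) := by
        rw [← Real.rpow_natCast]
        congr 1
        rw [Nat.cast_sub (by omega), Nat.cast_one]
      have e2 : 4 * m * (4 * m) ^ (1 / 3 : ℝ) = (4 * m) ^ (4 / 3 : ℝ) := by
        rw [mul_comm, ← Real.rpow_add_one h4m.ne']
        norm_num
      rw [e1, ← Real.rpow_mul h4m.le, e2]
      refine Real.rpow_le_rpow_of_exponent_ge h4m h4m1 ?_
      rw [← mul_div_assoc, le_div_iff₀ (by linarith)]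
      nlinarith
    have h7 : c * m ≤ J * (4 * m * (4 * m) ^ (1 / 3 : ℝ)) := by
      calc c * m = |Real.Gamma (p / 2)| * (m * (-p * ((4 / Real.pi ^ 2) ^ (n - 1) / 5))) := by
            rw [hc]; ring
        _ ≤ |Real.Gamma (p / 2)| * |I| := by gcongr
        _ ≤ J * ((4 * m) ^ (n - 1)) ^ (((n : ℝ) - 1) / n) := h3
        _ ≤ _ := by gcongr
    have h8 : c * m ≤ (4 * J * (4 * m) ^ (1 / 3 : ℝ)) * m := by
      calc c * m ≤ J * (4 * m * (4 * m) ^ (1 / 3 : ℝ)) := h7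
        _ = _ := by ring
    exact le_of_mul_le_mul_right h8 hm
  -- the limit
  have hlim : Tendsto (fun m : ℝ => 4 * J * (4 * m) ^ (1 / 3 : ℝ)) (𝓝[>] 0) (𝓝 0) := by
    have h1 : ContinuousAt (fun m : ℝ => 4 * J * (4 * m) ^ (1 / 3 : ℝ)) 0 := by
      refine ContinuousAt.mul continuousAt_const ?_
      exact ContinuousAt.rpow_const (by fun_prop) (Or.inr (by norm_num))
    have h2 := h1.tendsto
    simp only [mul_zero] at h2
    rw [Real.zero_rpow (by norm_num), mul_zero] at h2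
    exact h2.mono_left nhdsWithin_le_nhds
  have hge : c ≤ 0 := by
    refine ge_of_tendsto hlim ?_
    have hpos : (0 : ℝ) < 1 / (20 * n) := by positivity
    filter_upwards [Ioc_mem_nhdsGT hpos] with m hm
    exact key m hm.1 hm.2
  linarith

end Pool.Agent.T3h47.RM
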