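import Pool.Agent.T3h47.RM.D

/-!
# Star-shaped sets of finite volume have radial functions in `L^n` of a shell
-/

set_option autoImplicit false
set_option linter.all false
open MeasureTheory Set Filter Topology Metric Module
open scoped ENNReal RealInnerProductSpace FourierTransform SchwartzMap

namespace Pool.Agent.T3h47.RM

open Pool.Agent.Results.MP_fd6526_gt.MeanBodyEmbeds (Body radial meanRadial meanBody mean)

variable {n : ℕ}

lemma radial_nonneg (L : Set (Eu n)) (x : Eu n) : 0 ≤ radial L x :=
  Real.sSup_nonneg fun t ht => ht.1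

lemma radial_smul (L : Set (Eu n)) {x : Eu n} (hx : x ≠ 0) :
    radial L (‖x‖⁻¹ • x) = ‖x‖ * radial L x := by
  have hn : 0 < ‖x‖ := norm_pos_iff.2 hx
  unfold radial
  rw [← smul_eq_mul, ← Real.sSup_smul_of_nonneg hn.le]
  congr 1
  ext t
  simp only [mem_setOf_eq, Set.mem_smul_set, smul_eq_mul]
  constructor
  · rintro ⟨a, b⟩
    refine ⟨‖x‖⁻¹ * t, ⟨by positivity, ?_⟩, by field_simp⟩
    rwa [smul_smul, mul_comm] at b
  · rintro ⟨r, ⟨a, b⟩, rfl⟩
    refine ⟨by positivity, ?_⟩
    rw [smul_smul]
    rwa [show ‖x‖ * r * ‖x‖⁻¹ = r by field_simp]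

/-- the power of the radial function as an integral -/
lemma radial_pow_le (hn : 1 ≤ n) {L L' : Set (Eu n)} (hL : ∀ x ∈ L, ∀ t ∈ Icc (0 : ℝ) 1, t • x ∈ L)
    (hLL : L ⊆ L') (x : Eu n) :
    ENNReal.ofReal (radial L x ^ n) ≤ ∫⁻ t in Ioi (0 : ℝ), ENNReal.ofReal (n * t ^ (n - 1)) *
      L'.indicator (fun _ => (1 : ℝ≥0∞)) (t • x) := by
  have hr := radial_nonneg L x
  have hin : ∀ t ∈ Ioo (0 : ℝ) (radial L x), t • x ∈ L := by
    intro t ht
    obtain ⟨r, ⟨hr0, hrx⟩, htr⟩ := exists_lt_of_lt_csSup (by
      by_contra hcon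
      rw [not_nonempty_iff_eq_empty] at hcon
      have := ht.1.trans ht.2
      unfold radial at this
      rw [hcon, Real.sSup_empty] at this
      exact lt_irrefl _ this) ht.2
    have hr1 : 0 < r := ht.1.trans htr
    have h1 := hL (r • x) hrx (t / r) ⟨by positivity [ht.1.le], (div_le_one hr1).2 htr.le⟩
    rwa [smul_smul, div_mul_cancel₀ _ hr1.ne'] at h1
  have h1 : ENNReal.ofReal (radial L x ^ n) =
      ∫⁻ t in Ioo (0 : ℝ) (radial L x), ENNReal.ofReal (n * t ^ (n - 1)) := by
    have hpow : Integrable (fun t : ℝ => (n : ℝ) * t ^ (n - 1))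
        (volume.restrict (Ioo (0 : ℝ) (radial L x))) := by
      have : IntegrableOn (fun t : ℝ => (n : ℝ) * t ^ (n - 1)) (Icc (0 : ℝ) (radial L x)) :=
        Continuous.integrableOn_Icc (by fun_prop)
      exact this.mono_set Ioo_subset_Icc_self
    rw [← ofReal_integral_eq_lintegral_ofReal hpow, ← integral_Ioc_eq_integral_Ioo,
      ← intervalIntegral.integral_of_le hr, intervalIntegral.integral_const_mul, integral_pow]
    · congr 1
      have hn' : ((n - 1 : ℕ) : ℝ) + 1 = n := by
        rw [Nat.cast_sub hn, Nat.cast_one]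
        ring
      rw [hn', show n - 1 + 1 = n by omega, zero_pow (by omega), sub_zero]
      have : (n : ℝ) ≠ 0 := by
        have : 0 < n := by omega
        positivity
      field_simp
    · rw [EventuallyLE, ae_restrict_iff' measurableSet_Ioo]
      exact Eventually.of_forall fun t ht => by
        have := ht.1
        simp only [Pi.zero_apply]
        positivity
  rw [h1]
  have h2 : ∫⁻ t in Ioo (0 : ℝ) (radial L x), ENNReal.ofReal (n * t ^ (n - 1)) =
      ∫⁻ t in Ioo (0 : ℝ) (radial L x), ENNReal.ofReal (n * t ^ (n - 1)) *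
        L'.indicator (fun _ => (1 : ℝ≥0∞)) (t • x) := by
    refine setLIntegral_congr_fun measurableSet_Ioo fun t ht => ?_
    rw [indicator_of_mem (hLL (hin t ht)), mul_one]
  rw [h2]
  exact lintegral_mono' (Measure.restrict_mono (fun t ht => ht.1) le_rfl) le_rfl

lemma inner_le (c : ℝ) (hc : 0 < c) :
    ∫⁻ t in Ioi (0 : ℝ), ENNReal.ofReal (n * t⁻¹) *
      (if t ≤ c ∧ c ≤ 2 * t then (1 : ℝ≥0∞) else 0) ≤ n := by
  have h1 : ∀ t ∈ Ioi (0 : ℝ), ENNReal.ofReal (n * t⁻¹) *
      (if t ≤ c ∧ c ≤ 2 * t then (1 : ℝ≥0∞) else 0) ≤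
      (Icc (c / 2) c).indicator (fun _ => ENNReal.ofReal (n * (2 / c))) t := by
    intro t ht
    have ht' : 0 < t := ht
    split_ifs with h
    · rw [indicator_of_mem (show t ∈ Icc (c / 2) c from ⟨by linarith [h.2], h.1⟩), mul_one]
      apply ENNReal.ofReal_le_ofReal
      apply mul_le_mul_of_nonneg_left _ (Nat.cast_nonneg n)
      rw [inv_eq_one_div, div_le_div_iff₀ ht' hc]
      linarith [h.2]
    · rw [mul_zero]
      exact zero_le
  refine (setLIntegral_mono' measurableSet_Ioi h1).trans ?_
  refine (setLIntegral_le_lintegral _ _).trans ?_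
  rw [lintegral_indicator measurableSet_Icc, lintegral_const, Measure.restrict_apply
    MeasurableSet.univ, univ_inter, Real.volume_Icc, ← ENNReal.ofReal_mul (by positivity)]
  rw [show n * (2 / c) * (c - c / 2) = (n : ℝ) by field_simp; ring, ENNReal.ofReal_natCast]

/-- **the radial function of a star-shaped set of finite volume is in `L^n` of the shell** -/
lemma radial_shell (hn : 1 ≤ n) {L : Set (Eu n)} (hL : ∀ x ∈ L, ∀ t ∈ Icc (0 : ℝ) 1, t • x ∈ L) :
    ∫⁻ ξ in Sh n, ENNReal.ofReal (radial L ξ ^ n) ≤ n * volume L := by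
  set L' := toMeasurable volume L with hL'
  have hLm : MeasurableSet L' := measurableSet_toMeasurable _ _
  have hLL : L ⊆ L' := subset_toMeasurable _ _
  have hvol : volume L' = volume L := measure_toMeasurable _
  have hSh : MeasurableSet (Sh n) := by
    unfold Sh
    exact (measurableSet_le measurable_const measurable_norm).inter
      (measurableSet_le measurable_norm measurable_const)
  have hind : Measurable fun z : Eu n × ℝ => L'.indicator (fun _ => (1 : ℝ≥0∞)) (z.2 • z.1) :=
    (measurable_const.indicator hLm).comp (by fun_prop)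
  calc ∫⁻ ξ in Sh n, ENNReal.ofReal (radial L ξ ^ n)
      ≤ ∫⁻ ξ in Sh n, ∫⁻ t in Ioi (0 : ℝ), ENNReal.ofReal (n * t ^ (n - 1)) *
        L'.indicator (fun _ => (1 : ℝ≥0∞)) (t • ξ) := lintegral_mono fun ξ => radial_pow_le hn hL hLL ξ
    _ = ∫⁻ t in Ioi (0 : ℝ), ∫⁻ ξ in Sh n, ENNReal.ofReal (n * t ^ (n - 1)) *
        L'.indicator (fun _ => (1 : ℝ≥0∞)) (t • ξ) := by
        refine lintegral_lintegral_swap ?_
        refine Measurable.aemeasurable ?_
        exact ((measurable_snd.pow_const _).const_mul _).ennreal_ofReal.mul hind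
    _ = ∫⁻ t in Ioi (0 : ℝ), ∫⁻ x, ENNReal.ofReal (n * t⁻¹) *
        (if t ≤ ‖x‖ ∧ ‖x‖ ≤ 2 * t then (1 : ℝ≥0∞) else 0) * L'.indicator (fun _ => (1 : ℝ≥0∞)) x := by
        refine setLIntegral_congr_fun measurableSet_Ioi fun t ht => ?_
        have ht' : 0 < t := ht
        have hS : MeasurableSet {x : Eu n | t ≤ ‖x‖ ∧ ‖x‖ ≤ 2 * t} :=
          (measurableSet_le measurable_const measurable_norm).inter
            (measurableSet_le measurable_norm measurable_const)
        have e1 : ∫⁻ ξ in Sh n, ENNReal.ofReal (n * t ^ (n - 1)) *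
            L'.indicator (fun _ => (1 : ℝ≥0∞)) (t • ξ) =
            ENNReal.ofReal (n * t ^ (n - 1)) *
              volume ((fun ξ : Eu n => t • ξ) ⁻¹' (L' ∩ {x | t ≤ ‖x‖ ∧ ‖x‖ ≤ 2 * t})) := by
          rw [lintegral_const_mul']
          swap
          · exact ENNReal.ofReal_ne_top
          congr 1
          rw [← lintegral_indicator hSh, ← lintegral_indicator_one]
          · refine lintegral_congr fun ξ => ?_
            have hiff : ξ ∈ Sh n ↔ t • ξ ∈ {x : Eu n | t ≤ ‖x‖ ∧ ‖x‖ ≤ 2 * t} := by
              simp only [Sh, mem_setOf_eq, norm_smul, Real.norm_eq_abs, abs_of_pos ht']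
              constructor
              · rintro ⟨a, b⟩
                exact ⟨by nlinarith, by nlinarith⟩
              · rintro ⟨a, b⟩
                exact ⟨by nlinarith, by nlinarith⟩
            by_cases h1 : ξ ∈ Sh n
            · rw [indicator_of_mem h1]
              by_cases h2 : t • ξ ∈ L'
              · rw [indicator_of_mem h2, indicator_of_mem]
                · rfl
                · exact ⟨h2, hiff.1 h1⟩
              · rw [indicator_of_notMem h2, indicator_of_notMem]
                exact fun h => h2 h.1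
            · rw [indicator_of_notMem h1, indicator_of_notMem]
              exact fun h => h1 (hiff.2 h.2)
          · exact (measurable_const_smul t) (hLm.inter hS)
        rw [e1, Measure.addHaar_preimage_smul _ ht'.ne']
        have e2 : ∫⁻ x, ENNReal.ofReal (n * t⁻¹) *
            (if t ≤ ‖x‖ ∧ ‖x‖ ≤ 2 * t then (1 : ℝ≥0∞) else 0) *
              L'.indicator (fun _ => (1 : ℝ≥0∞)) x =
            ENNReal.ofReal (n * t⁻¹) * volume (L' ∩ {x | t ≤ ‖x‖ ∧ ‖x‖ ≤ 2 * t}) := by
          simp_rw [mul_assoc]
          rw [lintegral_const_mul']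
          swap
          · exact ENNReal.ofReal_ne_top
          congr 1
          rw [← lintegral_indicator_one (hLm.inter hS)]
          refine lintegral_congr fun x => ?_
          by_cases h2 : x ∈ L'
          · rw [indicator_of_mem h2, mul_one]
            by_cases h3 : t ≤ ‖x‖ ∧ ‖x‖ ≤ 2 * t
            · rw [if_pos h3, indicator_of_mem]
              · rfl
              · exact ⟨h2, h3⟩
            · rw [if_neg h3, indicator_of_notMem]
              exact fun h => h3 h.2
          · rw [indicator_of_notMem h2, mul_zero, indicator_of_notMem]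
            exact fun h => h2 h.1
        rw [e2, ← mul_assoc, ← ENNReal.ofReal_mul (by positivity)]
        congr 2
        rw [finrank_euclideanSpace, Fintype.card_fin, abs_of_nonneg (by positivity)]
        have : t ^ n = t ^ (n - 1) * t := by
          rw [← pow_succ]
          congr 1
          omega
        rw [this]
        field_simp
    _ = ∫⁻ x, ∫⁻ t in Ioi (0 : ℝ), ENNReal.ofReal (n * t⁻¹) *
        (if t ≤ ‖x‖ ∧ ‖x‖ ≤ 2 * t then (1 : ℝ≥0∞) else 0) * L'.indicator (fun _ => (1 : ℝ≥0∞)) x := by
        refine lintegral_lintegral_swap ?_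
        refine Measurable.aemeasurable ?_
        refine (Measurable.mul ?_ ?_).mul ?_
        · exact (measurable_fst.inv.const_mul _).ennreal_ofReal
        · refine Measurable.ite ?_ measurable_const measurable_const
          exact (measurableSet_le measurable_fst measurable_snd.norm).inter
            (measurableSet_le measurable_snd.norm (measurable_fst.const_mul _))
        · exact (measurable_const.indicator hLm).comp measurable_snd
    _ ≤ ∫⁻ x, n * L'.indicator (fun _ => (1 : ℝ≥0∞)) x := by
        refine lintegral_mono fun x => ?_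
        simp only
        rw [lintegral_mul_const']
        swap
        · by_cases h2 : x ∈ L'
          · rw [indicator_of_mem h2]
            exact ENNReal.one_ne_top
          · rw [indicator_of_notMem h2]
            exact ENNReal.zero_ne_top
        refine mul_le_mul' ?_ le_rfl
        rcases (norm_nonneg x).eq_or_lt with h0 | h0
        · have : ∀ t ∈ Ioi (0 : ℝ), ENNReal.ofReal (n * t⁻¹) *
              (if t ≤ ‖x‖ ∧ ‖x‖ ≤ 2 * t then (1 : ℝ≥0∞) else 0) = 0 := by
            intro t ht
            have ht' : 0 < t := ht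
            rw [if_neg, mul_zero]
            rintro ⟨a, -⟩
            linarith
          rw [setLIntegral_congr_fun measurableSet_Ioi this, lintegral_zero]
          exact zero_le
        · exact inner_le ‖x‖ h0
    _ = n * volume L := by
        rw [lintegral_const_mul' _ _ (ENNReal.natCast_ne_top n)]
        congr 1
        rw [← hvol]
        exact lintegral_indicator_one hLm

end Pool.Agent.T3h47.RM
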